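import Pool.Agent.HT13.Main

/-!
# MP_669823_co: degree-one induced subsets of the ternary Hamming graph

There is an absolute constant `C` such that every induced degree-1 subset of `H(n,3)`, `n ≥ 1`, has at most
`α(H(n,3)) + C` vertices.
-/

namespace Pool.Agent.Results.MP_669823_co.BoundedExcess

open Finset

/-- The Hamming graph `H(n,3)`: the vertices are the words of length `n` over `ℤ/3`, two words are adjacent if they differ
in exactly one coordinate (Mathlib's `hammingDist` counts the coordinates in which two words differ). -/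
def hammingGraph (n : ℕ) : SimpleGraph (Fin n → ZMod 3) where
  Adj x y := hammingDist x y = 1
  symm := ⟨fun x y h => by rw [hammingDist_comm]; exact h⟩
  loopless := ⟨fun x h => by rw [hammingDist_self] at h; exact absurd h (by norm_num)⟩

instance (n : ℕ) : DecidableRel (hammingGraph n).Adj := fun x y => inferInstanceAs (Decidable (hammingDist x y = 1))

theorem adj_update {n : ℕ} (x : Fin n → ZMod 3) (k : Fin n) (a : ZMod 3) (ha : a ≠ x k) :
    (hammingGraph n).Adj x (Function.update x k a) := by
  change hammingDist x (Function.update x k a) = 1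
  unfold hammingDist
  have : (univ.filter fun i => x i ≠ Function.update x k a i) = {k} := by
    ext i
    simp only [mem_filter, mem_univ, true_and, mem_singleton]
    constructor
    · intro h
      by_contra hik
      rw [Function.update_of_ne hik] at h
      exact h rfl
    · rintro rfl
      rw [Function.update_self]
      exact ha.symm
  rw [this, card_singleton]

theorem valid_of_degree {n : ℕ} {U : Finset (Fin n → ZMod 3)}
    (hU : ∀ u ∈ U, (U.filter fun v => (hammingGraph n).Adj u v).card ≤ 1) : HT13.Valid univ U := by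
  intro x hx k _ a ha k' _ a' ha' h1 h2
  have h3 := hU x hx
  rw [card_le_one] at h3
  have h4 := h3 (Function.update x k a) (mem_filter.mpr ⟨h1, adj_update x k a ha⟩)
    (Function.update x k' a') (mem_filter.mpr ⟨h2, adj_update x k' a' ha'⟩)
  have hk : k = k' := by
    by_contra hne
    have h5 := congrFun h4 k
    rw [Function.update_self, Function.update_of_ne hne] at h5
    exact ha h5
  subst hk
  have h5 := congrFun h4 k
  rw [Function.update_self, Function.update_self] at h5
  exact ⟨rfl, h5⟩

/-- the words with coordinate sum zero form an independent set of size `3 ^ (n - 1)` -/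
theorem le_indepNum {n : ℕ} (hn : 1 ≤ n) : 3 ^ (n - 1) ≤ (hammingGraph n).indepNum := by
  classical
  haveI : Nonempty (Fin n) := ⟨⟨0, hn⟩⟩
  have hs : HT13.Sgn (fun _ : Fin n => (1 : ZMod 3)) := fun k => one_ne_zero
  have hd := HT13.dens_hyp (T := (univ : Finset (Fin n))) univ_nonempty hs 0
  have hcard : (HT13.hyp (univ : Finset (Fin n)) (fun _ => 1) 0).card = 3 ^ (n - 1) := by
    unfold HT13.dens at hd
    rw [Fintype.card_fin, div_eq_iff (by positivity)] at hd
    have h1 : (3 : ℝ) ^ n = 3 * 3 ^ (n - 1) := by
      rw [← pow_succ']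
      congr 1
      omega
    rw [h1] at hd
    have h2 : ((HT13.hyp (univ : Finset (Fin n)) (fun _ => 1) 0).card : ℝ) = ((3 ^ (n - 1) : ℕ) : ℝ) := by
      rw [hd]
      push_cast
      ring
    exact_mod_cast h2
  have hind : (hammingGraph n).IsIndepSet (HT13.hyp (univ : Finset (Fin n)) (fun _ => 1) 0 : Set (Fin n → ZMod 3)) := by
    intro x hx y hy hxy hadj
    change hammingDist x y = 1 at hadj
    unfold hammingDist at hadj
    rw [card_eq_one] at hadj
    obtain ⟨k, hk⟩ := hadj
    have hk1 : ∀ i, i ≠ k → x i = y i := by
      intro i hi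
      by_contra hne
      have : i ∈ (univ.filter fun i => x i ≠ y i) := mem_filter.mpr ⟨mem_univ _, hne⟩
      rw [hk, mem_singleton] at this
      exact hi this
    have hk2 : x k ≠ y k := by
      have : k ∈ (univ.filter fun i => x i ≠ y i) := by rw [hk]; exact mem_singleton_self k
      exact (mem_filter.mp this).2
    rw [mem_coe, HT13.mem_hyp] at hx hy
    simp only [one_mul] at hx hy
    have h3 : ∑ i, (x i - y i) = 0 := by rw [sum_sub_distrib, hx, hy, sub_zero]
    rw [sum_eq_single k (fun i _ hi => by rw [hk1 i hi, sub_self]) (fun h => absurd (mem_univ k) h)] at h3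
    exact hk2 (sub_eq_zero.mp h3)
  rw [← hcard]
  exact hind.card_le_indepNum

/-- **Main result.** There is an absolute constant `C` such that for every `n ≥ 1` every set `U` of vertices of `H(n,3)` in
which every `u ∈ U` has at most one neighbour in `U` satisfies `|U| ≤ α(H(n,3)) + C`. -/
theorem result : ∃ C : ℕ, ∀ n : ℕ, 1 ≤ n → ∀ U : Finset (Fin n → ZMod 3),
    (∀ u ∈ U, (U.filter fun v => (hammingGraph n).Adj u v).card ≤ 1) →
    U.card ≤ (hammingGraph n).indepNum + C := by
  obtain ⟨C, hC⟩ := HT13.main_bound
  refine ⟨C, fun n hn U hU => ?_⟩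
  have h1 := hC n U (valid_of_degree hU)
  have h2 := le_indepNum hn
  unfold HT13.exc HT13.dens at h1
  rw [Fintype.card_fin, card_univ, Fintype.card_fin] at h1
  have h3 : (3 : ℝ) ^ n = 3 * 3 ^ (n - 1) := by
    rw [← pow_succ']
    congr 1
    omega
  have h4 : ((U.card : ℝ) / 3 ^ n - 1 / 3) * 3 ^ n = U.card - 3 ^ (n - 1) := by
    rw [sub_mul, div_mul_cancel₀ _ (by positivity), h3]
    ring
  rw [h4] at h1
  have h5 : (U.card : ℝ) ≤ ((3 ^ (n - 1) + C : ℕ) : ℝ) := by
    push_cast
    linarith
  have h6 : U.card ≤ 3 ^ (n - 1) + C := by exact_mod_cast h5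
  omega

end Pool.Agent.Results.MP_669823_co.BoundedExcess
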